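import Pool.Agent.Q193.PS.States

/-!
# The C*-algebra generated by translations and by all signs on `ℓ²` of a countable Boolean group
-/

set_option autoImplicit false

namespace Pool.Agent.Q193.PS

open ComplexOrder Filter Topology

open scoped ENNReal

/-- the countable Boolean group -/
abbrev L : Type := ℕ →₀ ZMod 2

/-- its dual group -/
abbrev V : Type := Module.Dual (ZMod 2) L

/-- the Hilbert space `ℓ²(L)` -/
abbrev H : Type := lp (fun _ : L => ℂ) 2

/-- the sign character of `ZMod 2` -/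
def sg (a : ZMod 2) : ℂ := if a = 0 then 1 else -1

lemma sg_zero : sg 0 = 1 := by simp [sg]

lemma sg_ne {a : ZMod 2} (h : a ≠ 0) : sg a = -1 := by simp [sg, h]

lemma z2_cases (a : ZMod 2) : a = 0 ∨ a = 1 := by revert a; decide

lemma sg_add (a b : ZMod 2) : sg (a + b) = sg a * sg b := by
  have h : (1 : ZMod 2) + 1 = 0 := by decide
  have h1 : (1 : ZMod 2) ≠ 0 := by decide
  rcases z2_cases a with rfl | rfl <;> rcases z2_cases b with rfl | rfl
  · simp [sg]
  · simp [sg]
  · simp [sg]
  · rw [h, sg_zero, sg_ne h1]; norm_num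

lemma sg_norm (a : ZMod 2) : ‖sg a‖ = 1 := by
  unfold sg; split_ifs <;> simp

lemma sg_sq (a : ZMod 2) : sg a * sg a = 1 := by
  unfold sg; split_ifs <;> simp

lemma sg_conj (a : ZMod 2) : starRingEnd ℂ (sg a) = sg a := by
  unfold sg; split_ifs <;> simp

lemma z2_add_self (a : ZMod 2) : a + a = 0 := by
  fin_cases a <;> decide

lemma L_add_self (x : L) : x + x = 0 := by
  ext i; exact z2_add_self _

lemma V_add_self (f : V) : f + f = 0 := by
  ext i; exact z2_add_self _

lemma L_neg (x : L) : -x = x := by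
  rw [neg_eq_iff_add_eq_zero]; exact L_add_self x

lemma memW (y : L) (f : V) (ξ : H) :
    Memℓp (fun x : L => sg (f x) * (ξ : L → ℂ) (x + y)) 2 := by
  have hp : 0 < (2 : ℝ≥0∞).toReal := by norm_num
  rw [memℓp_gen_iff hp]
  have h := (memℓp_gen_iff hp).mp ξ.2
  have h2 := (Equiv.addRight y).summable_iff
    (f := fun x => ‖(ξ : L → ℂ) x‖ ^ (2 : ℝ≥0∞).toReal) |>.mpr h
  refine h2.congr fun x => ?_
  simp only [Function.comp, Equiv.coe_addRight, norm_mul, sg_norm, one_mul]

/-- the operators `(W y f ξ)(x) = (-1)^{f x} ξ(x+y)` -/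
noncomputable def W (y : L) (f : V) : H →L[ℂ] H :=
  LinearMap.mkContinuous
    { toFun := fun ξ => ⟨fun x => sg (f x) * (ξ : L → ℂ) (x + y), memW y f ξ⟩
      map_add' := fun ξ η => by
        ext x
        change sg (f x) * ((ξ : L → ℂ) (x + y) + (η : L → ℂ) (x + y)) =
          sg (f x) * (ξ : L → ℂ) (x + y) + sg (f x) * (η : L → ℂ) (x + y)
        ring
      map_smul' := fun c ξ => by
        ext x
        change sg (f x) * (c * (ξ : L → ℂ) (x + y)) = c * (sg (f x) * (ξ : L → ℂ) (x + y))
        ring } 1 (by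
    intro ξ
    rw [one_mul]
    have hp : 0 < (2 : ℝ≥0∞).toReal := by norm_num
    rw [lp.norm_eq_tsum_rpow hp, lp.norm_eq_tsum_rpow hp]
    apply le_of_eq
    congr 1
    rw [← (Equiv.addRight y).tsum_eq (fun x => ‖(ξ : L → ℂ) x‖ ^ (2 : ℝ≥0∞).toReal)]
    congr 1
    funext x
    change ‖sg (f x) * (ξ : L → ℂ) (x + y)‖ ^ (2 : ℝ≥0∞).toReal = _
    simp only [Equiv.coe_addRight, norm_mul, sg_norm, one_mul])

lemma W_apply (y : L) (f : V) (ξ : H) (x : L) :
    (W y f ξ : L → ℂ) x = sg (f x) * (ξ : L → ℂ) (x + y) := rfl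

lemma W_norm_le (y : L) (f : V) : ‖W y f‖ ≤ 1 :=
  LinearMap.mkContinuous_norm_le _ zero_le_one _

lemma W_mul (y y' : L) (f f' : V) : W y f * W y' f' = sg (f' y) • W (y + y') (f + f') := by
  ext ξ x
  change sg (f x) * (sg (f' (x + y)) * (ξ : L → ℂ) (x + y + y')) =
    sg (f' y) * (sg ((f + f') x) * (ξ : L → ℂ) (x + (y + y')))
  rw [map_add, sg_add, LinearMap.add_apply, sg_add, add_assoc]
  ring

lemma W_zero : W 0 0 = 1 := by
  ext ξ x
  change sg 0 * (ξ : L → ℂ) (x + 0) = (ξ : L → ℂ) x
  rw [sg_zero, one_mul, add_zero]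

lemma star_W (y : L) (f : V) : star (W y f) = sg (f y) • W y f := by
  rw [ContinuousLinearMap.star_eq_adjoint]
  symm
  rw [ContinuousLinearMap.eq_adjoint_iff]
  intro u v
  rw [lp.inner_eq_tsum, lp.inner_eq_tsum,
    ← (Equiv.addRight y).tsum_eq (fun x => inner ℂ ((u : L → ℂ) x) ((W y f v : L → ℂ) x))]
  congr 1
  funext x
  rw [Equiv.coe_addRight, W_apply]
  change inner ℂ (sg (f y) * (sg (f x) * (u : L → ℂ) (x + y))) ((v : L → ℂ) x) = _
  rw [add_assoc, L_add_self, add_zero, map_add, sg_add]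
  simp only [RCLike.inner_apply, map_mul, sg_conj]
  ring

open scoped Classical in
/-- the basis vectors -/
noncomputable def dl (x : L) : H := lp.single 2 x (1 : ℂ)

lemma inner_dl (x : L) (v : H) : inner ℂ (dl x) v = (v : L → ℂ) x := by
  classical
  rw [dl, lp.inner_single_left]
  simp

lemma dl_self (x : L) : (dl x : L → ℂ) x = 1 := by
  classical
  simp [dl, lp.single_apply]

lemma dl_ne {x y : L} (h : y ≠ x) : (dl x : L → ℂ) y = 0 := by
  classical
  simp [dl, lp.single_apply, h]

lemma norm_dl (x : L) : ‖dl x‖ = 1 := by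
  classical
  have : ‖dl x‖ = ‖(1 : ℂ)‖ := lp.norm_single (by norm_num) _ _
  rw [this, norm_one]

lemma W_dl (y : L) (f : V) (x : L) : W y f (dl x) = sg (f (x + y)) • dl (x + y) := by
  ext z
  rw [W_apply]
  change _ = sg (f (x + y)) * (dl (x + y) : L → ℂ) z
  by_cases h : z = x + y
  · subst h
    rw [add_assoc, L_add_self, add_zero, dl_self, dl_self]
  · have h' : z + y ≠ x := by
      intro h2
      apply h
      rw [← h2, add_assoc, L_add_self, add_zero]
    rw [dl_ne h', dl_ne h, mul_zero, mul_zero]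

/-- the algebraic span -/
noncomputable def alg0 : StarSubalgebra ℂ (H →L[ℂ] H) where
  carrier := Submodule.span ℂ (Set.range fun p : L × V => W p.1 p.2)
  mul_mem' := by
    intro a b ha hb
    induction ha using Submodule.span_induction with
    | mem a ha =>
      obtain ⟨p, rfl⟩ := ha
      induction hb using Submodule.span_induction with
      | mem b hb =>
        obtain ⟨q, rfl⟩ := hb
        simp only [W_mul]
        exact Submodule.smul_mem _ _ (Submodule.subset_span ⟨(p.1 + q.1, p.2 + q.2), rfl⟩)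
      | zero => rw [mul_zero]; exact Submodule.zero_mem _
      | add x y _ _ hx hy => rw [mul_add]; exact Submodule.add_mem _ hx hy
      | smul c x _ hx => rw [mul_smul_comm]; exact Submodule.smul_mem _ _ hx
    | zero => rw [zero_mul]; exact Submodule.zero_mem _
    | add x y _ _ hx hy => rw [add_mul]; exact Submodule.add_mem _ hx hy
    | smul c x _ hx => rw [smul_mul_assoc]; exact Submodule.smul_mem _ _ hx
  add_mem' := fun ha hb => Submodule.add_mem _ ha hb
  algebraMap_mem' := fun r => by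
    rw [Algebra.algebraMap_eq_smul_one, ← W_zero]
    exact Submodule.smul_mem _ _ (Submodule.subset_span ⟨(0, 0), rfl⟩)
  star_mem' := by
    intro a ha
    change a ∈ Submodule.span ℂ (Set.range fun p : L × V => W p.1 p.2) at ha
    change star a ∈ Submodule.span ℂ (Set.range fun p : L × V => W p.1 p.2)
    induction ha using Submodule.span_induction with
    | mem a ha =>
      obtain ⟨p, rfl⟩ := ha
      simp only [star_W]
      exact Submodule.smul_mem _ _ (Submodule.subset_span ⟨p, rfl⟩)
    | zero => rw [star_zero]; exact Submodule.zero_mem _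
    | add x y _ _ hx hy => rw [star_add]; exact Submodule.add_mem _ hx hy
    | smul c x _ hx => rw [star_smul]; exact Submodule.smul_mem _ _ hx

/-- the C*-algebra -/
noncomputable def AA : StarSubalgebra ℂ (H →L[ℂ] H) := alg0.topologicalClosure

instance isClosed_AA : IsClosed (AA : Set (H →L[ℂ] H)) :=
  StarSubalgebra.isClosed_topologicalClosure _

lemma mem_AA_iff (a : H →L[ℂ] H) :
    a ∈ AA ↔ a ∈ closure (Submodule.span ℂ (Set.range fun p : L × V => W p.1 p.2) :
      Set (H →L[ℂ] H)) := Iff.rfl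

lemma W_mem (y : L) (f : V) : W y f ∈ AA :=
  StarSubalgebra.le_topologicalClosure _ (Submodule.subset_span ⟨(y, f), rfl⟩)

/-- the generators inside the algebra -/
noncomputable def w (y : L) (f : V) : AA := ⟨W y f, W_mem y f⟩

lemma w_mul (y y' : L) (f f' : V) : w y f * w y' f' = sg (f' y) • w (y + y') (f + f') :=
  Subtype.ext (W_mul y y' f f')

lemma w_zero : w 0 0 = 1 := Subtype.ext W_zero

lemma star_w (y : L) (f : V) : star (w y f) = sg (f y) • w y f := Subtype.ext (star_W y f)

lemma w_norm_le (y : L) (f : V) : ‖w y f‖ ≤ 1 := W_norm_le y f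

lemma star_w_norm_le (y : L) (f : V) : ‖star (w y f)‖ ≤ 1 := by
  rw [star_w, norm_smul, sg_norm, one_mul]
  exact w_norm_le y f

lemma w_star_mul (y : L) (f : V) : star (w y f) * w y f = 1 := by
  rw [star_w, smul_mul_assoc, w_mul, smul_smul, sg_sq, one_smul, L_add_self, V_add_self, w_zero]

lemma w_mul_star (y : L) (f : V) : w y f * star (w y f) = 1 := by
  rw [star_w, mul_smul_comm, w_mul, smul_smul, sg_sq, one_smul, L_add_self, V_add_self, w_zero]

/-- the span of the generators inside the algebra -/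
noncomputable def sp : Submodule ℂ AA := Submodule.span ℂ (Set.range fun p : L × V => w p.1 p.2)

lemma exists_sp (a : AA) {ε : ℝ} (hε : 0 < ε) : ∃ b ∈ sp, ‖a - b‖ < ε := by
  have h := (mem_AA_iff a).mp a.2
  rw [Metric.mem_closure_iff] at h
  obtain ⟨b, hb, hab⟩ := h ε hε
  have key : ∀ b : H →L[ℂ] H, b ∈ Submodule.span ℂ (Set.range fun p : L × V => W p.1 p.2) →
      ∃ c ∈ sp, (c : H →L[ℂ] H) = b := by
    intro b hb
    induction hb using Submodule.span_induction with
    | mem b hb =>
      obtain ⟨p, rfl⟩ := hb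
      exact ⟨w p.1 p.2, Submodule.subset_span ⟨p, rfl⟩, rfl⟩
    | zero => exact ⟨0, Submodule.zero_mem _, rfl⟩
    | add x y _ _ hx hy =>
      obtain ⟨c, hc, hcx⟩ := hx
      obtain ⟨d, hd, hdy⟩ := hy
      exact ⟨c + d, Submodule.add_mem _ hc hd, by rw [← hcx, ← hdy]; rfl⟩
    | smul r x _ hx =>
      obtain ⟨c, hc, hcx⟩ := hx
      exact ⟨r • c, Submodule.smul_mem _ _ hc, by rw [← hcx]; rfl⟩
  obtain ⟨c, hc, hcb⟩ := key b hb
  refine ⟨c, hc, ?_⟩
  rw [← hcb] at hab
  rw [dist_eq_norm] at hab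
  exact hab

lemma dense_sp (a : AA) : a ∈ closure (sp : Set AA) := by
  rw [Metric.mem_closure_iff]
  intro ε hε
  obtain ⟨b, hb, h⟩ := exists_sp a hε
  exact ⟨b, hb, by rw [dist_eq_norm]; exact h⟩

/-- two continuous functionals agreeing on the generators are equal -/
lemma ext_sp {φ ψ : AA →L[ℂ] ℂ} (h : ∀ y f, φ (w y f) = ψ (w y f)) : φ = ψ := by
  ext a
  have hcl : IsClosed {a : AA | φ a = ψ a} := isClosed_eq φ.continuous ψ.continuous
  have hsub : (sp : Set AA) ⊆ {a : AA | φ a = ψ a} := by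
    intro a ha
    change a ∈ Submodule.span ℂ (Set.range fun p : L × V => w p.1 p.2) at ha
    change φ a = ψ a
    induction ha using Submodule.span_induction with
    | mem b hb => obtain ⟨p, rfl⟩ := hb; exact h p.1 p.2
    | zero => rw [map_zero, map_zero]
    | add x y _ _ hx hy => rw [map_add, map_add, hx, hy]
    | smul r x _ hx => rw [map_smul, map_smul, hx]
  exact (hcl.closure_subset_iff.mpr hsub) (dense_sp a)

end Pool.Agent.Q193.PS
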