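import Pool.Agent.Q193.PS.Pure

/-!
# Countable supports
-/

set_option autoImplicit false

namespace Pool.Agent.Q193.PS

open ComplexOrder Filter Topology

/-- the span of the generators with functional in `C` -/
noncomputable def spC (C : Set V) : Submodule ℂ AA :=
  Submodule.span ℂ ((fun p : L × V => w p.1 p.2) '' {p | p.2 ∈ C})

lemma spC_mono {C D : Set V} (h : C ⊆ D) : spC C ≤ spC D :=
  Submodule.span_mono (Set.image_mono fun _ hp => h hp)

lemma exists_finC {a : AA} (ha : a ∈ sp) : ∃ Φ : Finset V, a ∈ spC (Φ : Set V) := by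
  classical
  change a ∈ Submodule.span ℂ (Set.range fun p : L × V => w p.1 p.2) at ha
  induction ha using Submodule.span_induction with
  | mem b hb =>
    obtain ⟨p, rfl⟩ := hb
    exact ⟨{p.2}, Submodule.subset_span ⟨p, by simp, rfl⟩⟩
  | zero => exact ⟨∅, Submodule.zero_mem _⟩
  | add a b _ _ ha hb =>
    obtain ⟨Φ₁, h₁⟩ := ha
    obtain ⟨Φ₂, h₂⟩ := hb
    exact ⟨Φ₁ ∪ Φ₂, Submodule.add_mem _
      (spC_mono (by rw [Finset.coe_union]; exact Set.subset_union_left) h₁)
      (spC_mono (by rw [Finset.coe_union]; exact Set.subset_union_right) h₂)⟩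
  | smul r a _ ha =>
    obtain ⟨Φ₁, h₁⟩ := ha
    exact ⟨Φ₁, Submodule.smul_mem _ _ h₁⟩

lemma exists_ctbl (a : AA) : ∃ C : Set V, C.Countable ∧ a ∈ closure (spC C : Set AA) := by
  have hex : ∀ n : ℕ, ∃ Φ : Finset V, ∃ b ∈ spC (Φ : Set V), ‖a - b‖ < 1 / ((n : ℝ) + 1) := by
    intro n
    obtain ⟨b, hb, hab⟩ := exists_sp a (show (0 : ℝ) < 1 / ((n : ℝ) + 1) by positivity)
    obtain ⟨Φ, hΦ⟩ := exists_finC hb
    exact ⟨Φ, b, hΦ, hab⟩
  choose Φ b hb hab using hex
  refine ⟨⋃ n, (Φ n : Set V), Set.countable_iUnion fun n => (Φ n).countable_toSet, ?_⟩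
  rw [Metric.mem_closure_iff]
  intro ε hε
  obtain ⟨n, hn⟩ := exists_nat_one_div_lt hε
  refine ⟨b n, spC_mono (Set.subset_iUnion (fun n => (Φ n : Set V)) n) (hb n), ?_⟩
  rw [dist_eq_norm]
  exact (hab n).trans hn

lemma span_countable {C : Set V} (hC : C.Countable) :
    (Submodule.span (ZMod 2) C : Set V).Countable := by
  have : Countable C := hC.to_subtype
  have h : (Submodule.span (ZMod 2) C : Set V) =
      Set.range (Finsupp.linearCombination (ZMod 2) (Subtype.val : C → V)) := by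
    ext x
    rw [SetLike.mem_coe, Finsupp.mem_span_iff_linearCombination]
    rfl
  rw [h]
  exact Set.countable_range _

lemma not_countable_V : ¬ (Set.univ : Set V).Countable := by
  intro h
  have h1 : Countable V := Set.countable_univ_iff.mp h
  obtain ⟨e, he⟩ := exists_surjective_nat V
  let g : V := Finsupp.lsum ℕ fun n : ℕ =>
    (LinearMap.toSpanSingleton (ZMod 2) (ZMod 2) (e n (Finsupp.single n 1) + 1))
  obtain ⟨n, hn⟩ := he g
  have h2 : g (Finsupp.single n 1) = e n (Finsupp.single n 1) + 1 := by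
    simp only [g, Finsupp.lsum_single]
    simp
  rw [← hn] at h2
  have h3 : (0 : ZMod 2) = 1 := by linear_combination h2
  exact absurd h3 (by decide)

lemma exists_notMem {C : Set V} (hC : C.Countable) : ∃ f₀ : V, f₀ ∉ Submodule.span (ZMod 2) C := by
  by_contra hcon
  push Not at hcon
  apply not_countable_V
  exact (span_countable hC).mono fun x _ => hcon x

lemma exists_point {C : Set V} {f₀ : V} (hf₀ : f₀ ∉ Submodule.span (ZMod 2) C) (Φ : Finset V) :
    ∃ x : L, (∀ f ∈ Φ, f ∈ C → f x = 0) ∧ f₀ x ≠ 0 := by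
  classical
  by_contra hcon
  push Not at hcon
  apply hf₀
  have h := mem_span_of_iInf_ker_le_ker (ι := {f // f ∈ Φ.filter fun f => f ∈ C})
    (L := fun f => f.1) (K := f₀) (by
      intro x hx
      rw [Submodule.mem_iInf] at hx
      rw [LinearMap.mem_ker]
      apply hcon
      intro f hf hfC
      exact LinearMap.mem_ker.mp (hx ⟨f, by simp [hf, hfC]⟩))
  refine Submodule.span_mono ?_ h
  rintro _ ⟨f, rfl⟩
  have := f.2
  simp only [Finset.mem_filter] at this
  exact this.2

end Pool.Agent.Q193.PS
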