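import Pool.Agent.Q193.PS.Ctbl

/-!
# No common extension makes the two pure states equivalent
-/

set_option autoImplicit false

namespace Pool.Agent.Q193.PS

open ComplexOrder Filter Topology

universe u

section

variable {B : Type u} [NonUnitalCStarAlgebra B] (ι : AA →⋆ₙₐ[ℂ] B)

/-- restriction of a functional along a star homomorphism -/
noncomputable def res {B : Type u} [NonUnitalCStarAlgebra B] {A : Type*} [NonUnitalCStarAlgebra A]
    (ι : A →⋆ₙₐ[ℂ] B) (χ : B →L[ℂ] ℂ) : A →L[ℂ] ℂ :=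
  LinearMap.mkContinuous
    { toFun := fun a => χ (ι a)
      map_add' := fun a b => by rw [map_add, map_add]
      map_smul' := fun c a => by rw [map_smul, map_smul]; rfl } ‖χ‖ (by
    intro a
    calc ‖χ (ι a)‖ ≤ ‖χ‖ * ‖ι a‖ := χ.le_opNorm _
      _ ≤ ‖χ‖ * ‖a‖ := by gcongr; exact NonUnitalStarAlgHom.norm_apply_le ι a)

lemma res_apply {A : Type*} [NonUnitalCStarAlgebra A] (ι : A →⋆ₙₐ[ℂ] B) (χ : B →L[ℂ] ℂ) (a : A) :
    res ι χ a = χ (ι a) := rfl

lemma res_norm {A : Type*} [NonUnitalCStarAlgebra A] (ι : A →⋆ₙₐ[ℂ] B) (χ : B →L[ℂ] ℂ) :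
    ‖res ι χ‖ ≤ ‖χ‖ := LinearMap.mkContinuous_norm_le _ (norm_nonneg _) _

lemma res_pos {A : Type*} [NonUnitalCStarAlgebra A] (ι : A →⋆ₙₐ[ℂ] B) (χ : B →L[ℂ] ℂ)
    (h : ∀ b, 0 ≤ χ (star b * b)) (a : A) : 0 ≤ res ι χ (star a * a) := by
  rw [res_apply, map_mul, map_star]
  exact h _

/-- a state of `B` with the values one on the images of the translations extends `phi` -/
lemma res_eq_phi {χ : B →L[ℂ] ℂ} (hχ : IsState χ) (h : ∀ y, χ (ι (w y 0)) = 1) (a : AA) :
    χ (ι a) = phi a := by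
  have : res ι χ = phi := uniq_phi' (res_pos ι χ hχ.1) (fun y => h y) isState_phi.1 phi_w
  rw [← this]
  rfl

/-- quantitative form of unique extension, by compactness -/
lemma compactness {ψ' : B →L[ℂ] ℂ} (hψ : UniqueExt ι (om 0) ψ') {b : B} (hb : ψ' b = 1) (k : ℕ) :
    ∃ (F : Finset AA) (j : ℕ), ∀ χ : B →L[ℂ] ℂ, IsState χ →
      (∀ a ∈ F, ‖χ (ι a) - om 0 a‖ ≤ 1 / ((j : ℝ) + 1)) → 1 - 1 / ((k : ℝ) + 1) ≤ (χ b).re := by
  classical
  by_contra hcon
  push Not at hcon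
  choose χ hχ hF hk using hcon
  let U : Ultrafilter (Finset AA × ℕ) := Ultrafilter.of atTop
  have hU : (U : Filter (Finset AA × ℕ)) ≤ atTop := Ultrafilter.of_le atTop
  obtain ⟨σ, hσ, hlim⟩ := exists_lim U (fun p => χ p.1 p.2) (fun p => (hχ p.1 p.2).2.le)
  have hpos := lim_pos U _ σ hlim (fun p b => (hχ p.1 p.2).1 b)
  have hext : ∀ a, σ (ι a) = om 0 a := by
    intro a
    refine tendsto_nhds_unique (hlim (ι a)) ?_
    refine Filter.Tendsto.mono_left ?_ hU
    rw [Metric.tendsto_atTop]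
    intro ε hε
    obtain ⟨n, hn⟩ := exists_nat_one_div_lt hε
    refine ⟨({a}, n), fun p hp => ?_⟩
    rw [dist_eq_norm]
    have h1 := hF p.1 p.2 a (hp.1 (by simp))
    have h2 : (1 : ℝ) / ((p.2 : ℝ) + 1) ≤ 1 / ((n : ℝ) + 1) := by
      have : (n : ℝ) ≤ p.2 := by exact_mod_cast hp.2
      gcongr
    exact (h1.trans h2).trans_lt hn
  have he : ‖ι (1 : AA)‖ ≤ 1 := (NonUnitalStarAlgHom.norm_apply_le ι 1).trans norm_one_le
  have hst : IsState σ := isState_of hpos hσ he (by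
    rw [hext, ← w_zero, om_w_zero, map_zero, sg_zero])
  have heq := hψ.2 σ hst hext
  have h1 : (σ b).re ≤ 1 - 1 / ((k : ℝ) + 1) := by
    have ht : Tendsto (fun p : Finset AA × ℕ => (χ p.1 p.2 b).re) U (𝓝 (σ b).re) :=
      (Complex.continuous_re.tendsto _).comp (hlim b)
    exact le_of_tendsto ht (Filter.Eventually.of_forall fun p => (hk p.1 p.2).le)
  rw [heq, hb, Complex.one_re] at h1
  have : (0 : ℝ) < 1 / ((k : ℝ) + 1) := by positivity
  linarith

/-- translates of a state -/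
noncomputable def tr (χ : B →L[ℂ] ℂ) (x : L) : B →L[ℂ] ℂ :=
  LinearMap.mkContinuous
    { toFun := fun b => χ (star (ι (w x 0)) * b * ι (w x 0))
      map_add' := fun a b => by rw [mul_add, add_mul, map_add]
      map_smul' := fun c a => by rw [mul_smul_comm, smul_mul_assoc, map_smul]; rfl } ‖χ‖ (by
    intro b
    have h1 : ‖ι (w x 0)‖ ≤ 1 := (NonUnitalStarAlgHom.norm_apply_le ι _).trans (w_norm_le x 0)
    calc ‖χ (star (ι (w x 0)) * b * ι (w x 0))‖
        ≤ ‖χ‖ * ‖star (ι (w x 0)) * b * ι (w x 0)‖ := χ.le_opNorm _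
      _ ≤ ‖χ‖ * (‖star (ι (w x 0)) * b‖ * ‖ι (w x 0)‖) := by gcongr; exact norm_mul_le _ _
      _ ≤ ‖χ‖ * ((‖star (ι (w x 0))‖ * ‖b‖) * ‖ι (w x 0)‖) := by gcongr; exact norm_mul_le _ _
      _ ≤ ‖χ‖ * ((1 * ‖b‖) * 1) := by rw [norm_star]; gcongr
      _ = ‖χ‖ * ‖b‖ := by ring)

lemma tr_apply (χ : B →L[ℂ] ℂ) (x : L) (b : B) :
    tr ι χ x b = χ (star (ι (w x 0)) * b * ι (w x 0)) := rfl

lemma tr_norm (χ : B →L[ℂ] ℂ) (x : L) : ‖tr ι χ x‖ ≤ ‖χ‖ :=
  LinearMap.mkContinuous_norm_le _ (norm_nonneg _) _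

lemma tr_pos (χ : B →L[ℂ] ℂ) (h : ∀ b, 0 ≤ χ (star b * b)) (x : L) (b : B) :
    0 ≤ tr ι χ x (star b * b) := by
  have : star (ι (w x 0)) * (star b * b) * ι (w x 0) =
      star (b * ι (w x 0)) * (b * ι (w x 0)) := by
    rw [star_mul]; simp only [mul_assoc]
  rw [tr_apply, this]
  exact h _

lemma tr_ext (χ : B →L[ℂ] ℂ) (h : ∀ a, χ (ι a) = om 0 a) (x : L) (a : AA) :
    tr ι χ x (ι a) = om x a := by
  have hs : star (w x 0) = w x 0 := by
    rw [star_w, LinearMap.zero_apply, sg_zero, one_smul]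
  rw [tr_apply, ← map_star, ← map_mul, ← map_mul, h, hs]
  nth_rewrite 2 [← hs]
  rw [om_conj, zero_add]

theorem main (φ' ψ' : B →L[ℂ] ℂ) (α : B ≃⋆ₐ[ℂ] B) (hφ : UniqueExt ι phi φ')
    (hψ : UniqueExt ι (om 0) ψ') (hα : ∀ b, φ' b = ψ' (α b)) : False := by
  classical
  let b : L → B := fun y => α (ι (w y 0))
  have hb1 : ∀ y, ψ' (b y) = 1 := by
    intro y
    rw [← hα, hφ.1.2, phi_w]
  have hbn : ∀ y, ‖b y‖ ≤ 1 := by
    intro y
    calc ‖b y‖ ≤ ‖ι (w y 0)‖ := NonUnitalStarAlgHom.norm_apply_le α _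
      _ ≤ ‖w y 0‖ := NonUnitalStarAlgHom.norm_apply_le ι _
      _ ≤ 1 := w_norm_le y 0
  -- `ψ'` is the only state with value one at all `b y`
  have huniq : ∀ χ : B →L[ℂ] ℂ, IsState χ → (∀ y, χ (b y) = 1) → χ = ψ' := by
    intro χ hχ hy
    let β : B →⋆ₙₐ[ℂ] B := (α : B →⋆ₙₐ[ℂ] B)
    have hβ : ∀ z, β z = α z := fun z => rfl
    have hp := res_pos β χ hχ.1
    have hn : ‖res β χ‖ ≤ 1 := (res_norm β χ).trans hχ.2.le
    have hval : ∀ y, res β χ (ι (w y 0)) = 1 := fun y => hy y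
    have he : ‖ι (w 0 0)‖ ≤ 1 := (NonUnitalStarAlgHom.norm_apply_le ι _).trans (w_norm_le 0 0)
    have hst : IsState (res β χ) := isState_of hp hn he (hval 0)
    have h1 := hφ.2 (res β χ) hst (res_eq_phi ι hst hval)
    ext z
    have h2 : res β χ (α.symm z) = φ' (α.symm z) := by rw [h1]
    rw [res_apply, hβ, hα, StarAlgEquiv.apply_symm_apply] at h2
    exact h2
  -- the compactness argument
  have hcomp : ∀ p : L × ℕ, ∃ (F : Finset AA) (j : ℕ), ∀ χ : B →L[ℂ] ℂ, IsState χ →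
      (∀ a ∈ F, ‖χ (ι a) - om 0 a‖ ≤ 1 / ((j : ℝ) + 1)) →
        1 - 1 / ((p.2 : ℝ) + 1) ≤ (χ (b p.1)).re :=
    fun p => compactness ι hψ (hb1 p.1) p.2
  choose F j hF using hcomp
  choose Cf hCf1 hCf2 using exists_ctbl
  let C : Set V := ⋃ p : L × ℕ, ⋃ a ∈ F p, Cf a
  have hC : C.Countable :=
    Set.countable_iUnion fun p => Set.Countable.biUnion (F p).countable_toSet fun a _ => hCf1 a
  obtain ⟨f₀, hf₀⟩ := exists_notMem hC
  choose x hx hx0 using exists_point hf₀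
  let U : Ultrafilter (Finset V) := Ultrafilter.of atTop
  have hU : (U : Filter (Finset V)) ≤ atTop := Ultrafilter.of_le atTop
  obtain ⟨σ, hσ, hlim⟩ := exists_lim U (fun Φ => tr ι ψ' (x Φ))
    (fun Φ => (tr_norm ι ψ' _).trans hψ.1.1.2.le)
  have hpos := lim_pos U _ σ hlim (fun Φ b => tr_pos ι ψ' hψ.1.1.1 _ b)
  have hlim' : ∀ a, Tendsto (fun Φ => om (x Φ) a) U (𝓝 (σ (ι a))) := by
    intro a
    refine (hlim (ι a)).congr fun Φ => ?_
    exact tr_ext ι ψ' hψ.1.2 _ a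
  -- values on generators with functional in `C`
  have hC1 : ∀ (y : L) (f : V), f ∈ C → σ (ι (w y f)) = om 0 (w y f) := by
    intro y f hf
    refine tendsto_nhds_unique (hlim' (w y f)) ?_
    refine tendsto_const_nhds.congr' ?_
    refine hU ?_
    filter_upwards [eventually_ge_atTop ({f} : Finset V)] with Φ hΦ
    by_cases hy : y = 0
    · subst hy
      rw [om_w_zero, om_w_zero, map_zero, hx Φ f (hΦ (by simp)) hf]
    · rw [om_w_ne _ hy, om_w_ne _ hy]
  have he : ‖ι (1 : AA)‖ ≤ 1 := (NonUnitalStarAlgHom.norm_apply_le ι 1).trans norm_one_le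
  have hone : σ (ι 1) = 1 := by
    refine tendsto_nhds_unique (hlim' 1) ?_
    refine tendsto_const_nhds.congr fun Φ => ?_
    rw [← w_zero, om_w_zero, LinearMap.zero_apply, sg_zero]
  have hst : IsState σ := isState_of hpos hσ he hone
  have hcl : ∀ a ∈ closure (spC C : Set AA), res ι σ a = om 0 a := by
    have hclosed : IsClosed {a : AA | res ι σ a = om 0 a} :=
      isClosed_eq (res ι σ).continuous (om 0).continuous
    have hsub : (spC C : Set AA) ⊆ {a : AA | res ι σ a = om 0 a} := by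
      intro a ha
      change a ∈ Submodule.span ℂ ((fun p : L × V => w p.1 p.2) '' {p | p.2 ∈ C}) at ha
      change res ι σ a = om 0 a
      induction ha using Submodule.span_induction with
      | mem b hb => obtain ⟨p, hp, rfl⟩ := hb; exact hC1 p.1 p.2 hp
      | zero => rw [map_zero, map_zero]
      | add x y _ _ hx hy => rw [map_add, map_add, hx, hy]
      | smul r x _ hx => rw [map_smul, map_smul, hx]
    exact fun a ha => (hclosed.closure_subset_iff.mpr hsub) ha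
  have hval : ∀ y, σ (b y) = 1 := by
    intro y
    have hn : ‖σ (b y)‖ ≤ 1 := by
      calc ‖σ (b y)‖ ≤ ‖σ‖ * ‖b y‖ := σ.le_opNorm _
        _ ≤ 1 * 1 := by gcongr; exact hbn y
        _ = 1 := one_mul 1
    apply eq_one_of_re hn
    have hk : ∀ k : ℕ, 1 - 1 / ((k : ℝ) + 1) ≤ (σ (b y)).re := by
      intro k
      apply hF (y, k) σ hst
      intro a ha
      have hmem : a ∈ closure (spC C : Set AA) := by
        refine closure_mono ?_ (hCf2 a)
        refine spC_mono ?_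
        intro f hf
        exact Set.mem_iUnion.mpr ⟨(y, k), Set.mem_biUnion ha hf⟩
      have := hcl a hmem
      rw [res_apply] at this
      rw [this, sub_self, norm_zero]
      positivity
    refine le_of_tendsto (f := fun k : ℕ => 1 - 1 / ((k : ℝ) + 1)) (x := atTop) ?_
      (Filter.Eventually.of_forall hk)
    have := tendsto_one_div_add_atTop_nhds_zero_nat (𝕜 := ℝ)
    simpa using this.const_sub 1
  have heq := huniq σ hst hval
  have h1 : σ (ι (w 0 f₀)) = 1 := by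
    rw [heq, hψ.1.2, om_w_zero, map_zero, sg_zero]
  have h2 : σ (ι (w 0 f₀)) = -1 := by
    refine tendsto_nhds_unique (hlim' (w 0 f₀)) ?_
    refine tendsto_const_nhds.congr fun Φ => ?_
    rw [om_w_zero, sg_ne (hx0 Φ)]
  rw [h1] at h2
  norm_num at h2

end

end Pool.Agent.Q193.PS
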