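import Pool.Agent.Q193.PS.Simple

/-!
# Two pure states of `AA`
-/

set_option autoImplicit false

namespace Pool.Agent.Q193.PS

open ComplexOrder Filter Topology

open scoped ENNReal

lemma norm_one_le : ‖(1 : AA)‖ ≤ 1 := by rw [← w_zero]; exact w_norm_le 0 0

lemma norm_le_one_of {ρ : AA →L[ℂ] ℂ} (hn : ‖ρ‖ ≤ 1) {a : AA} (ha : ‖a‖ ≤ 1) : ‖ρ a‖ ≤ 1 := by
  calc ‖ρ a‖ ≤ ‖ρ‖ * ‖a‖ := ρ.le_opNorm a
    _ ≤ 1 * 1 := by gcongr
    _ = 1 := one_mul 1

lemma eq_one_of_re {z : ℂ} (hz : ‖z‖ ≤ 1) (h : 1 ≤ z.re) : z = 1 := by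
  have h1 : z.re = 1 := le_antisymm ((Complex.re_le_norm z).trans hz) h
  have h2 : ‖z‖ ^ 2 = z.re ^ 2 + z.im ^ 2 := by
    rw [← Complex.normSq_eq_norm_sq, Complex.normSq_apply]; ring
  have h3 : ‖z‖ ^ 2 ≤ 1 := by nlinarith [norm_nonneg z]
  have h4 : z.im ^ 2 ≤ 0 := by rw [h1] at h2; linarith
  have h5 : z.im = 0 := by nlinarith [sq_nonneg z.im]
  apply Complex.ext
  · simpa using h1
  · simpa using h5

/-- `om 0` is determined by its values on the sign operators -/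
theorem uniq_psi {ρ : AA →L[ℂ] ℂ} (hp : ∀ a : AA, 0 ≤ ρ (star a * a))
    (h : ∀ f, ρ (w 0 f) = 1) : ρ = om 0 := by
  have h1 : ρ 1 = 1 := by rw [← w_zero]; exact h 0
  apply ext_sp
  intro y f
  by_cases hy : y = 0
  · subst hy
    rw [h, om_w_zero, map_zero, sg_zero]
  · obtain ⟨g, hg⟩ := exists_ne hy
    rw [om_w_ne 0 hy]
    have e1 : ρ (w 0 g * w y f) = ρ (w y f) :=
      unitary_mul hp h1 (w_mul_star 0 g) (h g) (w y f)
    have e2 : ρ (w y f * w 0 g) = ρ (w y f) :=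
      mul_unitary hp h1 (w_star_mul 0 g) (h g) (w y f)
    rw [w_mul, map_zero, sg_zero, one_smul, zero_add] at e1
    rw [w_mul, sg_ne hg, add_zero, map_smul, add_comm f g, e1, smul_eq_mul] at e2
    have : 2 * ρ (w y f) = 0 := by linear_combination -e2
    simpa using this

/-- a state is determined by its values on the translations, if these are all one -/
theorem uniq_phi {ρ : AA →L[ℂ] ℂ} (hp : ∀ a : AA, 0 ≤ ρ (star a * a))
    (h : ∀ y, ρ (w y 0) = 1) (y : L) (f : V) [Decidable (f = 0)] :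
    ρ (w y f) = if f = 0 then 1 else 0 := by
  have h1 : ρ 1 = 1 := by rw [← w_zero]; exact h 0
  by_cases hf : f = 0
  · subst hf
    rw [h, if_pos rfl]
  · obtain ⟨x, hx⟩ : ∃ x, f x ≠ 0 := by
      by_contra hcon
      push Not at hcon
      exact hf (LinearMap.ext hcon)
    rw [if_neg hf]
    have e1 : ρ (w x 0 * w y f) = ρ (w y f) :=
      unitary_mul hp h1 (w_mul_star x 0) (h x) (w y f)
    have e2 : ρ (w y f * w x 0) = ρ (w y f) :=
      mul_unitary hp h1 (w_star_mul x 0) (h x) (w y f)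
    rw [w_mul, sg_ne hx, map_smul, zero_add, smul_eq_mul] at e1
    rw [w_mul, LinearMap.zero_apply, sg_zero, one_smul, add_zero, add_comm y x] at e2
    rw [e2] at e1
    have : 2 * ρ (w y f) = 0 := by linear_combination -e1
    simpa using this

theorem uniq_phi' {ρ σ : AA →L[ℂ] ℂ} (hp : ∀ a : AA, 0 ≤ ρ (star a * a))
    (h : ∀ y, ρ (w y 0) = 1) (hp' : ∀ a : AA, 0 ≤ σ (star a * a))
    (h' : ∀ y, σ (w y 0) = 1) : ρ = σ := by
  classical
  apply ext_sp
  intro y f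
  rw [uniq_phi hp h, uniq_phi hp' h']

theorem isState_psi : IsState (om 0) :=
  isState_of (om_pos 0) (om_norm_le 0) norm_one_le
    (by rw [← w_zero, om_w_zero, map_zero, sg_zero])

theorem convex_one {φ₁ φ₂ : AA →L[ℂ] ℂ} (h₁ : IsState φ₁) (h₂ : IsState φ₂) {t : ℝ} (ht : 0 < t)
    (ht' : t < 1) {u : AA} (hu : ‖u‖ ≤ 1)
    (h : ((t : ℂ) • φ₁ + ((1 - t : ℝ) : ℂ) • φ₂) u = 1) : φ₁ u = 1 ∧ φ₂ u = 1 := by
  have n1 : ‖φ₁ u‖ ≤ 1 := norm_le_one_of h₁.2.le hu
  have n2 : ‖φ₂ u‖ ≤ 1 := norm_le_one_of h₂.2.le hu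
  have hre := congrArg Complex.re h
  change ((t : ℂ) * φ₁ u + ((1 - t : ℝ) : ℂ) * φ₂ u).re = (1 : ℂ).re at hre
  rw [Complex.add_re, Complex.re_ofReal_mul, Complex.re_ofReal_mul, Complex.one_re] at hre
  have r1 := (Complex.re_le_norm _).trans n1
  have r2 := (Complex.re_le_norm _).trans n2
  have ht2 : 0 < 1 - t := by linarith
  have m1 : t * (φ₁ u).re ≤ t * 1 := mul_le_mul_of_nonneg_left r1 ht.le
  have m2 : (1 - t) * (φ₂ u).re ≤ (1 - t) * 1 := mul_le_mul_of_nonneg_left r2 ht2.le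
  constructor
  · apply eq_one_of_re n1
    have : t * 1 ≤ t * (φ₁ u).re := by linarith
    exact le_of_mul_le_mul_left this ht
  · apply eq_one_of_re n2
    have : (1 - t) * 1 ≤ (1 - t) * (φ₂ u).re := by linarith
    exact le_of_mul_le_mul_left this ht2

theorem isPure_psi : IsPure (om 0) := by
  refine ⟨isState_psi, fun φ₁ φ₂ h₁ h₂ t ht ht' h => ?_⟩
  have key : ∀ f, φ₁ (w 0 f) = 1 ∧ φ₂ (w 0 f) = 1 := fun f =>
    convex_one h₁ h₂ ht ht' (w_norm_le 0 f) (by rw [← h, om_w_zero, map_zero, sg_zero])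
  exact ⟨uniq_psi h₁.1 fun f => (key f).1, uniq_psi h₂.1 fun f => (key f).2⟩

/-- a vector functional -/
noncomputable def vf (v : H) (hv : ‖v‖ = 1) : AA →L[ℂ] ℂ :=
  LinearMap.mkContinuous
    { toFun := fun a => inner ℂ v ((a : H →L[ℂ] H) v)
      map_add' := fun a b => by
        change inner ℂ v ((a : H →L[ℂ] H) v + (b : H →L[ℂ] H) v) = _
        rw [inner_add_right]
      map_smul' := fun c a => by
        change inner ℂ v (c • (a : H →L[ℂ] H) v) = _
        rw [inner_smul_right]; rfl } 1 (by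
    intro a
    rw [one_mul]
    change ‖inner ℂ v ((a : H →L[ℂ] H) v)‖ ≤ ‖(a : H →L[ℂ] H)‖
    calc ‖inner ℂ v ((a : H →L[ℂ] H) v)‖
        ≤ ‖v‖ * ‖(a : H →L[ℂ] H) v‖ := norm_inner_le_norm _ _
      _ ≤ ‖v‖ * (‖(a : H →L[ℂ] H)‖ * ‖v‖) := by
          gcongr; exact ContinuousLinearMap.le_opNorm _ _
      _ = ‖(a : H →L[ℂ] H)‖ := by rw [hv]; ring)

lemma vf_apply (v : H) (hv : ‖v‖ = 1) (a : AA) : vf v hv a = inner ℂ v ((a : H →L[ℂ] H) v) := rfl

lemma vf_norm_le (v : H) (hv : ‖v‖ = 1) : ‖vf v hv‖ ≤ 1 :=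
  LinearMap.mkContinuous_norm_le _ zero_le_one _

lemma vf_pos (v : H) (hv : ‖v‖ = 1) (a : AA) : 0 ≤ vf v hv (star a * a) := by
  have : vf v hv (star a * a) = ((‖(a : H →L[ℂ] H) v‖ ^ 2 : ℝ) : ℂ) := by
    rw [vf_apply]
    change inner ℂ v ((star (a : H →L[ℂ] H)) ((a : H →L[ℂ] H) v)) = _
    rw [ContinuousLinearMap.star_eq_adjoint, ContinuousLinearMap.adjoint_inner_right,
      inner_self_eq_norm_sq_to_K]
    norm_cast
  rw [this]
  exact Complex.zero_le_real.mpr (sq_nonneg _)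

/-- vectors fixed by finitely many translations -/
noncomputable def fx (l : List L) : H := l.foldr (fun y ξ => ξ + W y 0 ξ) (dl 0)

lemma fx_nonneg (l : List L) : ∀ x, ∃ r : ℝ, 0 ≤ r ∧ (fx l : L → ℂ) x = (r : ℂ) := by
  induction l with
  | nil =>
    intro x
    change ∃ r : ℝ, 0 ≤ r ∧ (dl 0 : L → ℂ) x = (r : ℂ)
    by_cases hx : x = 0
    · subst hx; exact ⟨1, zero_le_one, by rw [dl_self]; simp⟩
    · exact ⟨0, le_refl _, by rw [dl_ne hx]; simp⟩
  | cons y l ih =>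
    intro x
    obtain ⟨r, hr, hr'⟩ := ih x
    obtain ⟨s, hs, hs'⟩ := ih (x + y)
    refine ⟨r + s, add_nonneg hr hs, ?_⟩
    change (fx l : L → ℂ) x + (W y 0 (fx l) : L → ℂ) x = _
    rw [W_apply, hr', hs', LinearMap.zero_apply, sg_zero]
    push_cast
    ring

lemma fx_zero (l : List L) : 1 ≤ ((fx l : L → ℂ) 0).re := by
  induction l with
  | nil =>
    change 1 ≤ ((dl 0 : L → ℂ) 0).re
    rw [dl_self]; simp
  | cons y l ih =>
    obtain ⟨s, hs, hs'⟩ := fx_nonneg l (0 + y)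
    change 1 ≤ ((fx l : L → ℂ) 0 + (W y 0 (fx l) : L → ℂ) 0).re
    rw [W_apply, hs', LinearMap.zero_apply, sg_zero, one_mul, Complex.add_re, Complex.ofReal_re]
    linarith

lemma fx_ne (l : List L) : fx l ≠ 0 := by
  intro h
  have := fx_zero l
  rw [h] at this
  change (1 : ℝ) ≤ (0 : ℂ).re at this
  simp at this
  linarith

lemma W_comm (x y : L) (ξ : H) : W x 0 (W y 0 ξ) = W y 0 (W x 0 ξ) := by
  ext z
  rw [W_apply, W_apply, W_apply, W_apply, add_right_comm]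
  simp

lemma W_W (x : L) (ξ : H) : W x 0 (W x 0 ξ) = ξ := by
  ext z
  rw [W_apply, W_apply, add_assoc, L_add_self, add_zero]
  simp [sg_zero]

lemma fx_fixed (l : List L) : ∀ x ∈ l, W x 0 (fx l) = fx l := by
  induction l with
  | nil => simp
  | cons y l ih =>
    intro x hx
    change W x 0 (fx l + W y 0 (fx l)) = fx l + W y 0 (fx l)
    rcases List.mem_cons.mp hx with h | h
    · subst h
      rw [map_add, W_W, add_comm]
    · rw [map_add, W_comm, ih x h]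

lemma exists_unit (F : Finset L) : ∃ v : H, ‖v‖ = 1 ∧ ∀ x ∈ F, W x 0 v = v := by
  refine ⟨((‖fx F.toList‖⁻¹ : ℝ) : ℂ) • fx F.toList, ?_, fun x hx => ?_⟩
  · rw [norm_smul, Complex.norm_real, Real.norm_of_nonneg (inv_nonneg.mpr (norm_nonneg _)),
      inv_mul_cancel₀ (norm_ne_zero_iff.mpr (fx_ne _))]
  · rw [map_smul, fx_fixed _ x (by simpa using hx)]

theorem exists_phi : ∃ φ : AA →L[ℂ] ℂ, IsState φ ∧ ∀ y, φ (w y 0) = 1 := by
  choose v hv hfix using exists_unit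
  let U : Ultrafilter (Finset L) := Ultrafilter.of atTop
  obtain ⟨σ, hσ, hlim⟩ := exists_lim U (fun F => vf (v F) (hv F)) (fun F => vf_norm_le _ _)
  have hpos := lim_pos U _ σ hlim (fun F a => vf_pos _ _ a)
  have hone : ∀ y, σ (w y 0) = 1 := by
    intro y
    refine tendsto_nhds_unique (hlim (w y 0)) ?_
    refine tendsto_const_nhds.congr' ?_
    have hU : (U : Filter (Finset L)) ≤ atTop := Ultrafilter.of_le atTop
    refine hU ?_
    filter_upwards [eventually_ge_atTop ({y} : Finset L)] with F hF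
    rw [vf_apply]
    change 1 = inner ℂ (v F) (W y 0 (v F))
    rw [hfix F y (hF (by simp)), inner_self_eq_norm_sq_to_K, hv]
    simp
  refine ⟨σ, isState_of hpos hσ norm_one_le ?_, hone⟩
  rw [← w_zero]
  exact hone 0

/-- the state invariant under translations -/
noncomputable def phi : AA →L[ℂ] ℂ := exists_phi.choose

theorem isState_phi : IsState phi := exists_phi.choose_spec.1

theorem phi_w (y : L) : phi (w y 0) = 1 := exists_phi.choose_spec.2 y

theorem isPure_phi : IsPure phi := by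
  refine ⟨isState_phi, fun φ₁ φ₂ h₁ h₂ t ht ht' h => ?_⟩
  have key : ∀ y, φ₁ (w y 0) = 1 ∧ φ₂ (w y 0) = 1 := fun y =>
    convex_one h₁ h₂ ht ht' (w_norm_le y 0) (by rw [← h, phi_w])
  exact ⟨uniq_phi' h₁.1 (fun y => (key y).1) isState_phi.1 phi_w,
    uniq_phi' h₂.1 (fun y => (key y).2) isState_phi.1 phi_w⟩

end Pool.Agent.Q193.PS
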