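import Pool.Agent.Q193.PS.Alg

/-!
# The algebra `AA` is simple
-/

set_option autoImplicit false

namespace Pool.Agent.Q193.PS

open ComplexOrder Filter Topology

open scoped ENNReal

/-- the vector states of the basis vectors -/
noncomputable def om (x : L) : AA →L[ℂ] ℂ :=
  LinearMap.mkContinuous
    { toFun := fun a => inner ℂ (dl x) ((a : H →L[ℂ] H) (dl x))
      map_add' := fun a b => by
        change inner ℂ (dl x) ((a : H →L[ℂ] H) (dl x) + (b : H →L[ℂ] H) (dl x)) = _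
        rw [inner_add_right]
      map_smul' := fun c a => by
        change inner ℂ (dl x) (c • (a : H →L[ℂ] H) (dl x)) = _
        rw [inner_smul_right]; rfl } 1 (by
    intro a
    rw [one_mul]
    change ‖inner ℂ (dl x) ((a : H →L[ℂ] H) (dl x))‖ ≤ ‖(a : H →L[ℂ] H)‖
    calc ‖inner ℂ (dl x) ((a : H →L[ℂ] H) (dl x))‖
        ≤ ‖dl x‖ * ‖(a : H →L[ℂ] H) (dl x)‖ := norm_inner_le_norm _ _
      _ ≤ ‖dl x‖ * (‖(a : H →L[ℂ] H)‖ * ‖dl x‖) := by
          gcongr; exact ContinuousLinearMap.le_opNorm _ _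
      _ = ‖(a : H →L[ℂ] H)‖ := by rw [norm_dl]; ring)

lemma om_apply (x : L) (a : AA) : om x a = inner ℂ (dl x) ((a : H →L[ℂ] H) (dl x)) := rfl

lemma om_norm_le (x : L) : ‖om x‖ ≤ 1 := LinearMap.mkContinuous_norm_le _ zero_le_one _

lemma om_le (x : L) (a : AA) : ‖om x a‖ ≤ ‖a‖ := by
  calc ‖om x a‖ ≤ ‖om x‖ * ‖a‖ := (om x).le_opNorm a
    _ ≤ 1 * ‖a‖ := by gcongr; exact om_norm_le x
    _ = ‖a‖ := one_mul _

lemma om_w_zero (x : L) (f : V) : om x (w 0 f) = sg (f x) := by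
  rw [om_apply, inner_dl]
  change (W 0 f (dl x) : L → ℂ) x = _
  rw [W_apply, add_zero, dl_self, mul_one]

lemma om_w_ne (x : L) {y : L} (hy : y ≠ 0) (f : V) : om x (w y f) = 0 := by
  rw [om_apply, inner_dl]
  change (W y f (dl x) : L → ℂ) x = _
  rw [W_apply, dl_ne, mul_zero]
  intro h
  exact hy (by simpa using h)

lemma om_star_mul (x : L) (a : AA) :
    om x (star a * a) = ((‖(a : H →L[ℂ] H) (dl x)‖ ^ 2 : ℝ) : ℂ) := by
  rw [om_apply]
  change inner ℂ (dl x) ((star (a : H →L[ℂ] H)) ((a : H →L[ℂ] H) (dl x))) = _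
  rw [ContinuousLinearMap.star_eq_adjoint, ContinuousLinearMap.adjoint_inner_right,
    inner_self_eq_norm_sq_to_K]
  norm_cast

lemma om_pos (x : L) (a : AA) : 0 ≤ om x (star a * a) := by
  rw [om_star_mul]
  exact Complex.zero_le_real.mpr (sq_nonneg _)

lemma om_conj (x y : L) (f : V) (a : AA) :
    om x (w y f * a * star (w y f)) = om (x + y) a := by
  have h1 : star (W y f) (dl x) = (sg (f y) * sg (f (x + y))) • dl (x + y) := by
    rw [star_W]
    change sg (f y) • (W y f (dl x)) = _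
    rw [W_dl, smul_smul]
  rw [om_apply, om_apply]
  change inner ℂ (dl x) ((W y f) ((a : H →L[ℂ] H) (star (W y f) (dl x)))) = _
  have h2 : ∀ v : H, inner ℂ (dl x) ((W y f) v) = inner ℂ (star (W y f) (dl x)) v := by
    intro v
    rw [ContinuousLinearMap.star_eq_adjoint, ContinuousLinearMap.adjoint_inner_left]
  rw [h2, h1, map_smul, inner_smul_left, inner_smul_right, ← mul_assoc]
  have : (starRingEnd ℂ) (sg (f y) * sg (f (x + y))) * (sg (f y) * sg (f (x + y))) = 1 := by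
    rw [map_mul, sg_conj, sg_conj]
    calc sg (f y) * sg (f (x + y)) * (sg (f y) * sg (f (x + y)))
        = (sg (f y) * sg (f y)) * (sg (f (x + y)) * sg (f (x + y))) := by ring
      _ = 1 := by rw [sg_sq, sg_sq, one_mul]
  rw [this, one_mul]

/-- averaging over one sign operator -/
noncomputable def T (g : V) (a : AA) : AA := (1 / 2 : ℂ) • (a + w 0 g * a * star (w 0 g))

/-- iterated averaging -/
noncomputable def TL (l : List V) (a : AA) : AA := l.foldr T a

lemma T_add (g : V) (a b : AA) : T g (a + b) = T g a + T g b := by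
  unfold T
  rw [mul_add, add_mul, ← smul_add]
  congr 1
  abel

lemma T_smul (g : V) (c : ℂ) (a : AA) : T g (c • a) = c • T g a := by
  unfold T
  rw [mul_smul_comm, smul_mul_assoc, ← smul_add, smul_comm]

lemma T_norm (g : V) (a : AA) : ‖T g a‖ ≤ ‖a‖ := by
  unfold T
  rw [norm_smul]
  have h1 : ‖w 0 g * a * star (w 0 g)‖ ≤ ‖a‖ := by
    calc ‖w 0 g * a * star (w 0 g)‖ ≤ ‖w 0 g * a‖ * ‖star (w 0 g)‖ := norm_mul_le _ _
      _ ≤ ‖w 0 g‖ * ‖a‖ * ‖star (w 0 g)‖ := by gcongr; exact norm_mul_le _ _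
      _ ≤ 1 * ‖a‖ * 1 := by
          gcongr
          · exact w_norm_le _ _
          · exact star_w_norm_le _ _
      _ = ‖a‖ := by ring
  have h2 := norm_add_le a (w 0 g * a * star (w 0 g))
  have h3 : ‖(1 / 2 : ℂ)‖ = 1 / 2 := by norm_num
  rw [h3]
  linarith

lemma T_mem {I : Submodule ℂ AA} (hI : ∀ a : AA, ∀ x ∈ I, a * x ∈ I ∧ x * a ∈ I) (g : V)
    {a : AA} (ha : a ∈ I) : T g a ∈ I :=
  I.smul_mem _ (I.add_mem ha (hI _ _ (hI _ _ ha).1).2)

lemma om_T (x : L) (g : V) (a : AA) : om x (T g a) = om x a := by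
  unfold T
  rw [map_smul, map_add, om_conj, add_zero, smul_eq_mul]
  ring

lemma T_w (g : V) (y : L) (f : V) : T g (w y f) = ((1 + sg (g y)) / 2) • w y f := by
  unfold T
  rw [star_w, w_mul, mul_smul_comm, smul_mul_assoc, w_mul, map_zero, map_zero, sg_zero, one_smul,
    one_smul, zero_add, add_zero, add_comm g f, add_assoc, V_add_self, add_zero]
  rw [← one_smul ℂ (w y f), smul_smul, ← add_smul, smul_smul, one_smul]
  congr 1
  ring

lemma T_w_eq {g : V} {y : L} (h : g y = 0) (f : V) : T g (w y f) = w y f := by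
  rw [T_w, h, sg_zero]; norm_num

lemma T_w_ne {g : V} {y : L} (h : g y ≠ 0) (f : V) : T g (w y f) = 0 := by
  rw [T_w, sg_ne h]; norm_num

lemma T_zero (g : V) : T g 0 = 0 := by
  unfold T; simp

lemma TL_add (l : List V) (a b : AA) : TL l (a + b) = TL l a + TL l b := by
  induction l with
  | nil => rfl
  | cons g l ih =>
    change T g (TL l (a + b)) = T g (TL l a) + T g (TL l b)
    rw [ih, T_add]

lemma TL_smul (l : List V) (c : ℂ) (a : AA) : TL l (c • a) = c • TL l a := by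
  induction l with
  | nil => rfl
  | cons g l ih =>
    change T g (TL l (c • a)) = c • T g (TL l a)
    rw [ih, T_smul]

lemma TL_sub (l : List V) (a b : AA) : TL l (a - b) = TL l a - TL l b := by
  have : a - b = a + (-1 : ℂ) • b := by simp [sub_eq_add_neg]
  rw [this, TL_add, TL_smul]
  simp [sub_eq_add_neg]

lemma TL_zero (l : List V) : TL l 0 = 0 := by
  induction l with
  | nil => rfl
  | cons g l ih => change T g (TL l 0) = 0; rw [ih, T_zero]

lemma TL_norm (l : List V) (a : AA) : ‖TL l a‖ ≤ ‖a‖ := by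
  induction l with
  | nil => exact le_refl _
  | cons g l ih => exact (T_norm g _).trans ih

lemma TL_mem {I : Submodule ℂ AA} (hI : ∀ a : AA, ∀ x ∈ I, a * x ∈ I ∧ x * a ∈ I) (l : List V)
    {a : AA} (ha : a ∈ I) : TL l a ∈ I := by
  induction l with
  | nil => exact ha
  | cons g l ih => exact T_mem hI g ih

lemma om_TL (x : L) (l : List V) (a : AA) : om x (TL l a) = om x a := by
  induction l with
  | nil => rfl
  | cons g l ih => change om x (T g (TL l a)) = _; rw [om_T, ih]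

lemma TL_w_zero (l : List V) (f : V) : TL l (w 0 f) = w 0 f := by
  induction l with
  | nil => rfl
  | cons g l ih => change T g (TL l _) = _; rw [ih, T_w_eq (map_zero g)]

lemma TL_w (l : List V) (y : L) (f : V) : TL l (w y f) = w y f ∨ TL l (w y f) = 0 := by
  induction l with
  | nil => exact Or.inl rfl
  | cons g l ih =>
    change T g (TL l _) = _ ∨ T g (TL l _) = _
    rcases ih with h | h
    · rw [h]
      by_cases hg : g y = 0
      · exact Or.inl (T_w_eq hg f)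
      · exact Or.inr (T_w_ne hg f)
    · rw [h, T_zero]; exact Or.inr rfl

lemma TL_w_ne {l : List V} {g : V} (hgl : g ∈ l) {y : L} (hg : g y ≠ 0) (f : V) :
    TL l (w y f) = 0 := by
  induction l with
  | nil => simp at hgl
  | cons g' l ih =>
    change T g' (TL l _) = _
    rcases List.mem_cons.mp hgl with h | h
    · subst h
      rcases TL_w l y f with h | h
      · rw [h, T_w_ne hg]
      · rw [h, T_zero]
    · rw [ih h, T_zero]

/-- diagonal elements -/
noncomputable def dg : Submodule ℂ AA := Submodule.span ℂ (Set.range fun f : V => w 0 f)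

lemma exists_ne {y : L} (hy : y ≠ 0) : ∃ g : V, g y ≠ 0 := by
  by_contra hcon
  push Not at hcon
  apply hy
  ext i
  exact hcon (Finsupp.lapply i)

lemma exists_list {a : AA} (ha : a ∈ sp) :
    ∃ l₀ : List V, ∀ l : List V, (∀ g ∈ l₀, g ∈ l) → TL l a ∈ dg := by
  change a ∈ Submodule.span ℂ (Set.range fun p : L × V => w p.1 p.2) at ha
  induction ha using Submodule.span_induction with
  | mem b hb =>
    obtain ⟨⟨y, f⟩, rfl⟩ := hb
    by_cases hy : y = 0
    · subst hy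
      refine ⟨[], fun l _ => ?_⟩
      change TL l (w 0 f) ∈ dg
      rw [TL_w_zero]
      exact Submodule.subset_span ⟨f, rfl⟩
    · obtain ⟨g, hg⟩ := exists_ne hy
      refine ⟨[g], fun l hl => ?_⟩
      change TL l (w y f) ∈ dg
      rw [TL_w_ne (hl g (by simp)) hg]
      exact Submodule.zero_mem _
  | zero => exact ⟨[], fun l _ => by rw [TL_zero]; exact Submodule.zero_mem _⟩
  | add x y _ _ hx hy =>
    obtain ⟨l₁, h₁⟩ := hx
    obtain ⟨l₂, h₂⟩ := hy
    refine ⟨l₁ ++ l₂, fun l hl => ?_⟩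
    rw [TL_add]
    exact Submodule.add_mem _ (h₁ l fun g hg => hl g (by simp [hg]))
      (h₂ l fun g hg => hl g (by simp [hg]))
  | smul r x _ hx =>
    obtain ⟨l₁, h₁⟩ := hx
    refine ⟨l₁, fun l hl => ?_⟩
    rw [TL_smul]
    exact Submodule.smul_mem _ _ (h₁ l hl)

lemma dg_apply {d : AA} (hd : d ∈ dg) (ξ : H) (x : L) :
    ((d : H →L[ℂ] H) ξ : L → ℂ) x = om x d * (ξ : L → ℂ) x := by
  change d ∈ Submodule.span ℂ (Set.range fun f : V => w 0 f) at hd
  induction hd using Submodule.span_induction with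
  | mem b hb =>
    obtain ⟨f, rfl⟩ := hb
    change ((W 0 f) ξ : L → ℂ) x = om x (w 0 f) * _
    rw [W_apply, om_w_zero, add_zero]
  | zero =>
    rw [map_zero, zero_mul]
    rfl
  | add a b _ _ ha hb =>
    change ((a : H →L[ℂ] H) ξ : L → ℂ) x + ((b : H →L[ℂ] H) ξ : L → ℂ) x = _
    rw [ha, hb, map_add]
    ring
  | smul r a _ ha =>
    change r * ((a : H →L[ℂ] H) ξ : L → ℂ) x = _
    rw [ha, map_smul, smul_eq_mul]
    ring

lemma dg_norm {d : AA} (hd : d ∈ dg) {C : ℝ} (hC : 0 ≤ C) (h : ∀ x, ‖om x d‖ ≤ C) : ‖d‖ ≤ C := by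
  change ‖(d : H →L[ℂ] H)‖ ≤ C
  apply ContinuousLinearMap.opNorm_le_bound _ hC
  intro ξ
  have hp : 0 < (2 : ℝ≥0∞).toReal := by norm_num
  apply lp.norm_le_of_tsum_le hp (by positivity)
  rw [Real.mul_rpow hC (norm_nonneg _), lp.norm_rpow_eq_tsum hp, ← tsum_mul_left]
  have hs : Summable fun x => C ^ (2 : ℝ≥0∞).toReal * ‖(ξ : L → ℂ) x‖ ^ (2 : ℝ≥0∞).toReal :=
    ((memℓp_gen_iff hp).mp ξ.2).mul_left _
  have hs2 : Summable fun x =>
      ‖((d : H →L[ℂ] H) ξ : L → ℂ) x‖ ^ (2 : ℝ≥0∞).toReal :=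
    (memℓp_gen_iff hp).mp ((d : H →L[ℂ] H) ξ).2
  refine hs2.tsum_le_tsum (fun x => ?_) hs
  rw [← Real.mul_rpow hC (norm_nonneg _)]
  apply Real.rpow_le_rpow (norm_nonneg _) _ hp.le
  rw [dg_apply hd, norm_mul]
  gcongr
  exact h x

/-- the diagonal of an element of the span depends on finitely many functionals only -/
lemma exists_fin {a : AA} (ha : a ∈ sp) :
    ∃ Φ : Finset V, ∀ x x' : L, (∀ f ∈ Φ, f x = f x') → om x a = om x' a := by
  classical
  change a ∈ Submodule.span ℂ (Set.range fun p : L × V => w p.1 p.2) at ha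
  induction ha using Submodule.span_induction with
  | mem b hb =>
    obtain ⟨⟨y, f⟩, rfl⟩ := hb
    refine ⟨{f}, fun x x' h => ?_⟩
    change om x (w y f) = om x' (w y f)
    by_cases hy : y = 0
    · subst hy
      rw [om_w_zero, om_w_zero, h f (by simp)]
    · rw [om_w_ne x hy, om_w_ne x' hy]
  | zero => exact ⟨∅, fun x x' _ => by rw [map_zero, map_zero]⟩
  | add a b _ _ ha hb =>
    obtain ⟨Φ₁, h₁⟩ := ha
    obtain ⟨Φ₂, h₂⟩ := hb
    refine ⟨Φ₁ ∪ Φ₂, fun x x' h => ?_⟩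
    rw [map_add, map_add, h₁ x x' fun f hf => h f (by simp [hf]),
      h₂ x x' fun f hf => h f (by simp [hf])]
  | smul r a _ ha =>
    obtain ⟨Φ₁, h₁⟩ := ha
    refine ⟨Φ₁, fun x x' h => ?_⟩
    rw [map_smul, map_smul, h₁ x x' h]

/-- finitely many translates of a coset of finite index cover -/
lemma exists_cover (Φ : Finset V) (x₀ : L) :
    ∃ R : Finset L, ∀ x : L, ∃ y ∈ R, ∀ f ∈ Φ, f (x + y) = f x₀ := by
  classical
  let F : L → (Φ → ZMod 2) := fun x f => f.1 x
  have hfin : (Set.range F).Finite := Set.toFinite _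
  let s : (Φ → ZMod 2) → L := fun v => if h : ∃ y, F y = v then h.choose else 0
  refine ⟨Finset.univ.image s, fun x => ?_⟩
  have hex : ∃ y, F y = F (x₀ - x) := ⟨x₀ - x, rfl⟩
  refine ⟨s (F (x₀ - x)), Finset.mem_image_of_mem _ (Finset.mem_univ _), fun f hf => ?_⟩
  have hs : F (s (F (x₀ - x))) = F (x₀ - x) := by
    simp only [s]
    rw [dif_pos hex]
    exact hex.choose_spec
  have := congrFun hs ⟨f, hf⟩
  simp only [F] at this
  rw [map_add, this, map_sub]
  ring

lemma ext_dl {a : AA} (h : ∀ x, (a : H →L[ℂ] H) (dl x) = 0) : a = 0 := by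
  have h3 : star (a : H →L[ℂ] H) = 0 := by
    ext v x
    rw [← inner_dl, ContinuousLinearMap.star_eq_adjoint, ContinuousLinearMap.adjoint_inner_right,
      h, inner_zero_left]
    rfl
  have h4 : (a : H →L[ℂ] H) = 0 := by
    rw [← star_star (a : H →L[ℂ] H), h3, star_zero]
  exact Subtype.ext h4

theorem simple_AA : SimpleCStar AA := by
  intro I _ hI
  by_cases hbot : I = ⊥
  · exact Or.inl hbot
  right
  obtain ⟨a, haI, ha0⟩ := (Submodule.ne_bot_iff I).mp hbot
  obtain ⟨x₀, hx₀⟩ : ∃ x₀, (a : H →L[ℂ] H) (dl x₀) ≠ 0 := by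
    by_contra hcon
    push Not at hcon
    exact ha0 (ext_dl hcon)
  set b : AA := star a * a with hb
  have hbI : b ∈ I := (hI (star a) a haI).1
  set η : ℝ := ‖(a : H →L[ℂ] H) (dl x₀)‖ ^ 2 / 4 with hη
  have hη0 : 0 < η := by
    have := norm_pos_iff.mpr hx₀
    positivity
  have hb0 : om x₀ b = ((4 * η : ℝ) : ℂ) := by
    rw [hb, om_star_mul, hη]
    congr 1
    ring
  obtain ⟨b', hb', hbb⟩ := exists_sp b hη0
  obtain ⟨Φ, hΦ⟩ := exists_fin hb'
  obtain ⟨R, hR⟩ := exists_cover Φ x₀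
  have hlow : ∀ z : L, (∀ f ∈ Φ, f z = f x₀) → 2 * η ≤ (om z b).re := by
    intro z hz
    have h1 : ‖om z b - om z b'‖ ≤ η := by
      rw [← map_sub]; exact (om_le z _).trans hbb.le
    have h2 : ‖om x₀ b - om x₀ b'‖ ≤ η := by
      rw [← map_sub]; exact (om_le x₀ _).trans hbb.le
    have h3 := hΦ z x₀ hz
    have h4 : ‖om x₀ b - om z b‖ ≤ 2 * η := by
      have : om x₀ b - om z b = (om x₀ b - om x₀ b') - (om z b - om z b') := by
        rw [h3]; ring
      rw [this]
      calc _ ≤ ‖om x₀ b - om x₀ b'‖ + ‖om z b - om z b'‖ := norm_sub_le _ _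
        _ ≤ 2 * η := by linarith
    have h5 := (Complex.re_le_norm _).trans h4
    rw [Complex.sub_re, hb0, Complex.ofReal_re] at h5
    linarith
  set c : AA := ∑ y ∈ R, w y 0 * b * star (w y 0) with hc
  have hcI : c ∈ I := I.sum_mem fun y _ => (hI _ _ (hI _ _ hbI).1).2
  have homc : ∀ x, om x c = ∑ y ∈ R, om (x + y) b := by
    intro x
    rw [hc, map_sum]
    exact Finset.sum_congr rfl fun y _ => om_conj x y 0 b
  have hbre : ∀ x, om x b = (((om x b).re : ℝ) : ℂ) ∧ 0 ≤ (om x b).re := by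
    intro x
    have h := Complex.le_def.mp (om_pos x a)
    refine ⟨?_, by simpa using h.1⟩
    apply Complex.ext
    · simp
    · rw [Complex.ofReal_im]; simpa using h.2.symm
  have hcre : ∀ x, ∃ r : ℝ, om x c = (r : ℂ) ∧ 2 * η ≤ r ∧ r ≤ ‖c‖ := by
    intro x
    refine ⟨∑ y ∈ R, (om (x + y) b).re, ?_, ?_, ?_⟩
    · rw [homc, Complex.ofReal_sum]
      exact Finset.sum_congr rfl fun y _ => (hbre _).1
    · obtain ⟨y, hy, hyf⟩ := hR x
      exact (hlow _ hyf).trans
        (Finset.single_le_sum (f := fun y => (om (x + y) b).re) (fun y _ => (hbre _).2) hy)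
    · have h1 := om_le x c
      have h2 : (om x c).re = ∑ y ∈ R, (om (x + y) b).re := by
        rw [homc, Complex.re_sum]
      rw [← h2]
      exact (Complex.re_le_norm _).trans h1
  obtain ⟨c', hc', hcc⟩ := exists_sp c (half_pos hη0)
  obtain ⟨l, hl⟩ := exists_list hc'
  have hd : TL l c' ∈ dg := hl l fun g hg => hg
  have heI : TL l c ∈ I := TL_mem hI l hcI
  set M : ℝ := ‖c‖ + η with hM
  have hM0 : 0 < M := by positivity
  have hd1 : ‖(1 : AA) - ((M⁻¹ : ℝ) : ℂ) • TL l c'‖ ≤ 1 - 3 / 2 * η / M := by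
    have hmem : (1 : AA) - ((M⁻¹ : ℝ) : ℂ) • TL l c' ∈ dg :=
      Submodule.sub_mem _ (by rw [← w_zero]; exact Submodule.subset_span ⟨0, rfl⟩)
        (Submodule.smul_mem _ _ hd)
    have hnn : 0 ≤ 1 - 3 / 2 * η / M := by
      obtain ⟨r, _, hr2, hr3⟩ := hcre 0
      rw [sub_nonneg, div_le_one hM0]
      linarith
    apply dg_norm hmem hnn
    intro x
    obtain ⟨r, hr1, hr2, hr3⟩ := hcre x
    have h1 : ‖om x c - om x c'‖ ≤ η / 2 := by
      rw [← map_sub]; exact (om_le x _).trans hcc.le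
    have h2 : om x ((1 : AA) - ((M⁻¹ : ℝ) : ℂ) • TL l c') =
        (((1 - M⁻¹ * r : ℝ) : ℂ)) + ((M⁻¹ : ℝ) : ℂ) * (om x c - om x c') := by
      rw [map_sub, map_smul, om_TL, ← w_zero, om_w_zero, hr1]
      change sg 0 - ((M⁻¹ : ℝ) : ℂ) * om x c' = _
      rw [sg_zero]
      push_cast
      ring
    rw [h2]
    have h3 : 0 ≤ 1 - M⁻¹ * r := by
      rw [sub_nonneg, inv_mul_le_iff₀ hM0]
      linarith
    calc _ ≤ ‖(((1 - M⁻¹ * r : ℝ) : ℂ))‖ + ‖((M⁻¹ : ℝ) : ℂ) * (om x c - om x c')‖ :=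
          norm_add_le _ _
      _ ≤ (1 - M⁻¹ * r) + M⁻¹ * (η / 2) := by
          rw [norm_mul, Complex.norm_real, Complex.norm_real, Real.norm_of_nonneg h3,
            Real.norm_of_nonneg (inv_nonneg.mpr hM0.le)]
          gcongr
      _ ≤ (1 - M⁻¹ * (2 * η)) + M⁻¹ * (η / 2) := by gcongr
      _ = 1 - 3 / 2 * η / M := by field_simp; ring
  have he1 : ‖(1 : AA) - ((M⁻¹ : ℝ) : ℂ) • TL l c‖ < 1 := by
    have h1 : ‖TL l c' - TL l c‖ ≤ η / 2 := by
      rw [← TL_sub]
      refine (TL_norm _ _).trans ?_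
      rw [norm_sub_rev]
      exact hcc.le
    have h2 : (1 : AA) - ((M⁻¹ : ℝ) : ℂ) • TL l c =
        ((1 : AA) - ((M⁻¹ : ℝ) : ℂ) • TL l c') + ((M⁻¹ : ℝ) : ℂ) • (TL l c' - TL l c) := by
      rw [smul_sub]; abel
    rw [h2]
    calc _ ≤ ‖(1 : AA) - ((M⁻¹ : ℝ) : ℂ) • TL l c'‖ + ‖((M⁻¹ : ℝ) : ℂ) • (TL l c' - TL l c)‖ :=
          norm_add_le _ _
      _ ≤ (1 - 3 / 2 * η / M) + M⁻¹ * (η / 2) := by
          rw [norm_smul, Complex.norm_real, Real.norm_of_nonneg (inv_nonneg.mpr hM0.le)]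
          gcongr
      _ = 1 - η / M := by field_simp; ring
      _ < 1 := by
          have : 0 < η / M := by positivity
          linarith
  have hu := (Units.oneSub _ he1).isUnit
  rw [Units.val_oneSub, sub_sub_cancel] at hu
  obtain ⟨v, hv⟩ := hu.exists_left_inv
  have h1I : (1 : AA) ∈ I := by
    rw [← hv]
    exact (hI v _ (I.smul_mem _ heI)).1
  rw [eq_top_iff]
  intro z _
  have := (hI z 1 h1I).1
  rwa [mul_one] at this

end Pool.Agent.Q193.PS
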