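import Mathlib

/-!
# Positive functionals on C*-algebras: elementary facts
-/

set_option autoImplicit false

namespace Pool.Agent.Q193.PS

open ComplexOrder Filter Topology

/-- A state: a positive linear functional of norm one. -/
def IsState {A : Type*} [NonUnitalCStarAlgebra A] (φ : A →L[ℂ] ℂ) : Prop :=
  (∀ a : A, 0 ≤ φ (star a * a)) ∧ ‖φ‖ = 1

/-- A pure state: an extreme point of the state space. -/
def IsPure {A : Type*} [NonUnitalCStarAlgebra A] (φ : A →L[ℂ] ℂ) : Prop :=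
  IsState φ ∧ ∀ φ₁ φ₂ : A →L[ℂ] ℂ, IsState φ₁ → IsState φ₂ → ∀ t : ℝ, 0 < t → t < 1 →
    φ = (t : ℂ) • φ₁ + ((1 - t : ℝ) : ℂ) • φ₂ → φ₁ = φ ∧ φ₂ = φ

/-- The only closed two-sided ideals are `0` and the whole algebra. -/
def SimpleCStar (A : Type*) [NonUnitalCStarAlgebra A] : Prop :=
  ∀ I : Submodule ℂ A, IsClosed (I : Set A) → (∀ a : A, ∀ x ∈ I, a * x ∈ I ∧ x * a ∈ I) →
    I = ⊥ ∨ I = ⊤

/-- `φ'` is a state of `B` extending `φ` along the embedding `ι`, and it is the only one. -/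
def UniqueExt {A B : Type*} [NonUnitalCStarAlgebra A] [NonUnitalCStarAlgebra B]
    (ι : A →⋆ₙₐ[ℂ] B) (φ : A →L[ℂ] ℂ) (φ' : B →L[ℂ] ℂ) : Prop :=
  (IsState φ' ∧ ∀ a, φ' (ι a) = φ a) ∧
    ∀ χ : B →L[ℂ] ℂ, IsState χ → (∀ a, χ (ι a) = φ a) → χ = φ'

section

variable {A : Type*} [NonUnitalCStarAlgebra A] {φ : A →L[ℂ] ℂ}

theorem expand (φ : A →L[ℂ] ℂ) (a b : A) (l : ℂ) :
    φ (star (a + l • b) * (a + l • b)) =
      φ (star a * a) + l * φ (star a * b) + starRingEnd ℂ l * φ (star b * a) +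
        (starRingEnd ℂ l * l) * φ (star b * b) := by
  rw [star_add, star_smul, add_mul, mul_add, mul_add, smul_mul_assoc, smul_mul_assoc,
    mul_smul_comm, mul_smul_comm, map_add, map_add, map_add, map_smul, map_smul, map_smul, map_smul]
  simp only [smul_eq_mul, Complex.star_def]
  ring

theorem herm2 (h : ∀ a : A, 0 ≤ φ (star a * a)) (a b : A) :
    φ (star b * a) = starRingEnd ℂ (φ (star a * b)) := by
  have h1 := (Complex.le_def.mp (h (a + (1 : ℂ) • b))).2
  have h2 := (Complex.le_def.mp (h (a + Complex.I • b))).2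
  have ha := (Complex.le_def.mp (h a)).2
  have hb := (Complex.le_def.mp (h b)).2
  rw [expand] at h1 h2
  simp at h1 h2 ha hb
  apply Complex.ext
  · simp
    linarith
  · simp
    linarith

theorem cs (h : ∀ a : A, 0 ≤ φ (star a * a)) (a b : A) :
    ‖φ (star a * b)‖ ^ 2 ≤ (φ (star a * a)).re * (φ (star b * b)).re := by
  set z := φ (star a * b) with hz
  have key : ∀ t : ℝ, 0 ≤ ((φ (star b * b)).re * ‖z‖ ^ 2) * (t * t) + (-2 * ‖z‖ ^ 2) * t
      + (φ (star a * a)).re := by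
    intro t
    have h1 := (Complex.le_def.mp (h (a + (-(t : ℂ) * starRingEnd ℂ z) • b))).1
    have hb := (Complex.le_def.mp (h b)).2
    rw [expand, herm2 h a b, ← hz] at h1
    have e1 : (-(t : ℂ) * starRingEnd ℂ z) * z = ((-t * ‖z‖ ^ 2 : ℝ) : ℂ) := by
      have : starRingEnd ℂ z * z = ((‖z‖ ^ 2 : ℝ) : ℂ) := by
        rw [mul_comm, Complex.mul_conj, Complex.normSq_eq_norm_sq]
      rw [mul_assoc, this]; push_cast; ring
    have e2 : starRingEnd ℂ (-(t : ℂ) * starRingEnd ℂ z) * starRingEnd ℂ z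
        = ((-t * ‖z‖ ^ 2 : ℝ) : ℂ) := by
      rw [← map_mul, e1, Complex.conj_ofReal]
    have e3 : starRingEnd ℂ (-(t : ℂ) * starRingEnd ℂ z) * (-(t : ℂ) * starRingEnd ℂ z)
        = ((t * t * ‖z‖ ^ 2 : ℝ) : ℂ) := by
      rw [mul_comm, Complex.mul_conj, Complex.normSq_eq_norm_sq]
      simp only [norm_mul, norm_neg, Complex.norm_real, RCLike.norm_conj]
      rw [mul_pow, Real.norm_eq_abs, sq_abs]
      push_cast
      ring
    rw [e1, e2, e3] at h1
    simp only [Complex.zero_re, Complex.add_re, Complex.ofReal_re, Complex.re_ofReal_mul] at h1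
    nlinarith [h1]
  have hd := discrim_le_zero key
  unfold discrim at hd
  by_cases hz0 : ‖z‖ = 0
  · rw [hz0]
    have h1 := (Complex.le_def.mp (h a)).1
    have h2 := (Complex.le_def.mp (h b)).1
    simp at h1 h2
    simpa using mul_nonneg h1 h2
  · have hp : 0 < ‖z‖ ^ 2 := by positivity
    by_contra hcon
    push Not at hcon
    nlinarith [mul_pos hp (sub_pos.mpr hcon)]

theorem ker_right (h : ∀ a : A, 0 ≤ φ (star a * a)) {b : A} (hb : φ (star b * b) = 0) (a : A) :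
    φ (a * b) = 0 := by
  have := cs h (star a) b
  rw [hb, star_star] at this
  simp at this
  exact this

theorem ker_left (h : ∀ a : A, 0 ≤ φ (star a * a)) {b : A} (hb : φ (star b * b) = 0) (a : A) :
    φ (star b * a) = 0 := by
  have := cs h b a
  rw [hb] at this
  simp at this
  exact this

end

section unital

variable {A : Type*} [CStarAlgebra A] {φ : A →L[ℂ] ℂ}

theorem herm (h : ∀ a : A, 0 ≤ φ (star a * a)) (a : A) :
    φ (star a) = starRingEnd ℂ (φ a) := by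
  have := herm2 h 1 a
  simpa using this

theorem state_one [Nontrivial A] (h : IsState φ) : φ 1 = 1 := by
  obtain ⟨hp, hn⟩ := h
  have h1 : 0 ≤ φ 1 := by simpa using hp 1
  have h1' := Complex.le_def.mp h1
  have hle : ‖φ 1‖ ≤ 1 := by
    calc ‖φ 1‖ ≤ ‖φ‖ * ‖(1 : A)‖ := φ.le_opNorm 1
      _ = 1 := by rw [hn, CStarRing.norm_one]; ring
  have hre : (φ 1).re ≤ 1 := (Complex.re_le_norm _).trans hle
  have hge : ‖φ‖ ≤ Real.sqrt (φ 1).re := by
    apply ContinuousLinearMap.opNorm_le_bound _ (Real.sqrt_nonneg _)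
    intro a
    have hc := cs hp 1 a
    rw [star_one, one_mul, one_mul] at hc
    have h2 : (φ (star a * a)).re ≤ ‖a‖ ^ 2 := by
      calc (φ (star a * a)).re ≤ ‖φ (star a * a)‖ := Complex.re_le_norm _
        _ ≤ ‖φ‖ * ‖star a * a‖ := φ.le_opNorm _
        _ = ‖a‖ ^ 2 := by rw [hn, CStarRing.norm_star_mul_self]; ring
    have h3 : ‖φ a‖ ^ 2 ≤ (φ 1).re * ‖a‖ ^ 2 :=
      hc.trans (mul_le_mul_of_nonneg_left h2 h1'.1)
    calc ‖φ a‖ = Real.sqrt (‖φ a‖ ^ 2) := (Real.sqrt_sq (norm_nonneg _)).symm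
      _ ≤ Real.sqrt ((φ 1).re * ‖a‖ ^ 2) := Real.sqrt_le_sqrt h3
      _ = Real.sqrt (φ 1).re * ‖a‖ := by
          rw [Real.sqrt_mul h1'.1, Real.sqrt_sq (norm_nonneg _)]
  rw [hn] at hge
  have : 1 ≤ (φ 1).re := by
    by_contra hcon
    push Not at hcon
    have := Real.sqrt_lt_sqrt h1'.1 hcon
    rw [Real.sqrt_one] at this
    linarith
  apply Complex.ext
  · simp; linarith
  · simpa using h1'.2.symm

/-- If `φ u = 1` for a unitary `u` then `u` is in the multiplicative domain. -/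
theorem mul_unitary (hp : ∀ a : A, 0 ≤ φ (star a * a)) (h1 : φ 1 = 1) {u : A}
    (hu : star u * u = 1) (hφ : φ u = 1) (a : A) : φ (a * u) = φ a := by
  have hb : φ (star (u - 1) * (u - 1)) = 0 := by
    have : star (u - 1) * (u - 1) = 1 + 1 - u - star u := by
      rw [star_sub, star_one, sub_mul, mul_sub, mul_sub, hu]
      simp
      abel
    rw [this, map_sub, map_sub, map_add, herm hp, hφ, h1]
    simp
  have := ker_right hp hb a
  rw [mul_sub, map_sub, mul_one, sub_eq_zero] at this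
  exact this

theorem unitary_mul (hp : ∀ a : A, 0 ≤ φ (star a * a)) (h1 : φ 1 = 1) {u : A}
    (hu : u * star u = 1) (hφ : φ u = 1) (a : A) : φ (u * a) = φ a := by
  have h2 := mul_unitary hp h1 (u := star u) (by rw [star_star]; exact hu)
    (by rw [herm hp, hφ]; simp) (star a)
  rw [← star_mul, herm hp, herm hp] at h2
  exact (starRingEnd ℂ).injective h2

end unital

/-- ultrafilter limits of uniformly bounded functionals -/
theorem exists_lim {B : Type*} [NormedAddCommGroup B] [NormedSpace ℂ B] {I : Type*}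
    (U : Ultrafilter I) (ρ : I → (B →L[ℂ] ℂ)) (hρ : ∀ i, ‖ρ i‖ ≤ 1) :
    ∃ σ : B →L[ℂ] ℂ, ‖σ‖ ≤ 1 ∧ ∀ b, Tendsto (fun i => ρ i b) U (𝓝 (σ b)) := by
  have hex : ∀ b : B, ∃ z : ℂ, ‖z‖ ≤ ‖b‖ ∧ Tendsto (fun i => ρ i b) U (𝓝 z) := by
    intro b
    have hc : IsCompact (Metric.closedBall (0 : ℂ) ‖b‖) := isCompact_closedBall _ _
    have hmem : ∀ i, ρ i b ∈ Metric.closedBall (0 : ℂ) ‖b‖ := by
      intro i
      rw [mem_closedBall_zero_iff]
      calc ‖ρ i b‖ ≤ ‖ρ i‖ * ‖b‖ := (ρ i).le_opNorm b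
        _ ≤ 1 * ‖b‖ := by gcongr; exact hρ i
        _ = ‖b‖ := one_mul _
    have := hc.ultrafilter_le_nhds (U.map fun i => ρ i b) (by
      rw [Ultrafilter.coe_map, le_principal_iff, mem_map]
      exact Filter.univ_mem' hmem)
    obtain ⟨z, hz, hlim⟩ := this
    exact ⟨z, by simpa using hz, hlim⟩
  choose f hf hlim using hex
  refine ⟨LinearMap.mkContinuous
    { toFun := f
      map_add' := fun a b => ?_
      map_smul' := fun c a => ?_ } 1 (fun b => by simpa using hf b), ?_, fun b => hlim b⟩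
  · refine tendsto_nhds_unique (hlim (a + b)) ?_
    have := (hlim a).add (hlim b)
    simpa using this
  · refine tendsto_nhds_unique (hlim (c • a)) ?_
    have := (hlim a).const_mul c
    simpa using this
  · exact LinearMap.mkContinuous_norm_le _ zero_le_one _

theorem lim_pos {B : Type*} [NonUnitalCStarAlgebra B] {I : Type*}
    (U : Ultrafilter I) (ρ : I → (B →L[ℂ] ℂ)) (σ : B →L[ℂ] ℂ)
    (hσ : ∀ b, Tendsto (fun i => ρ i b) U (𝓝 (σ b)))
    (hp : ∀ i, ∀ b, 0 ≤ ρ i (star b * b)) (b : B) : 0 ≤ σ (star b * b) :=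
  ge_of_tendsto (hσ (star b * b)) (Filter.Eventually.of_forall fun i => hp i b)

/-- a positive functional of norm at most one taking the value one on a norm-one element -/
theorem isState_of {B : Type*} [NonUnitalCStarAlgebra B] {σ : B →L[ℂ] ℂ}
    (hp : ∀ b, 0 ≤ σ (star b * b)) (hn : ‖σ‖ ≤ 1) {e : B} (he : ‖e‖ ≤ 1) (h1 : σ e = 1) :
    IsState σ := by
  refine ⟨hp, le_antisymm hn ?_⟩
  have := σ.le_opNorm e
  rw [h1, norm_one] at this
  calc (1 : ℝ) ≤ ‖σ‖ * ‖e‖ := this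
    _ ≤ ‖σ‖ * 1 := by gcongr
    _ = ‖σ‖ := mul_one _

end Pool.Agent.Q193.PS
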